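import Pool.Agent.H31.EH.Targets
import Pool.Agent.H43.ES.TRP

/-!
Row PMI: the mass of the pairs of different directions as an integral over the stars.
-/

set_option autoImplicit false

open Finset MeasureTheory

namespace Pool.Agent.H36.EH

open Pool.Agent.H24.CL Pool.Agent.H24.LV Pool.Agent.H26.ES Pool.Agent.H31.EH Pool.Agent.H60.LVP

open Classical in
/-- the counting identity -/
theorem comb {G : Type} [AddCommGroup G] (K Hs : Finset G) (Γ : AddSubgroup G)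
    (hH : ∀ a, a ∈ Hs ↔ a ∈ Γ) (hKa : ∀ a ∈ K, ∀ b ∈ K, a + b ∈ K) (hKs : ∀ a ∈ K, ∀ b ∈ K,
    a - b ∈ K) (hΓ : ∀ a ∈ Γ, a ∈ K) (D : ℕ) (st : ℕ → G → Prop)
    (hu : ∀ z < D, ∀ a ∈ K, ∀ b ∈ K, st z a → st z b → a - b ∈ Γ)
    (hi : ∀ z a, ∀ h ∈ Γ, st z a → st z (a + h)) :
    ∑ κ ∈ K, ∑ z ∈ range D, (if st z κ then
      (((range D).filter fun z' => ∃ l ∈ K, l ∉ Γ ∧ st z' (κ + l)).card : ℝ) else 0) =
    (Hs.card : ℝ) * (((range D ×ˢ range D).filter fun z => ∃ κ ∈ K, ∃ κ' ∈ K, κ - κ' ∉ Γ ∧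
      st z.1 κ ∧ st z.2 κ').card : ℝ) := by
  have h1 : ∀ κ z, (if st z κ then
      (((range D).filter fun z' => ∃ l ∈ K, l ∉ Γ ∧ st z' (κ + l)).card : ℝ) else 0) =
      ∑ z' ∈ range D, (if st z κ ∧ ∃ l ∈ K, l ∉ Γ ∧ st z' (κ + l) then (1 : ℝ) else 0) := by
    intro κ z
    by_cases h : st z κ
    · rw [if_pos h, Finset.card_filter, Nat.cast_sum]
      refine Finset.sum_congr rfl fun z' _ => ?_
      by_cases h' : ∃ l ∈ K, l ∉ Γ ∧ st z' (κ + l)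
      · rw [if_pos h', if_pos ⟨h, h'⟩, Nat.cast_one]
      · rw [if_neg h', if_neg (fun hh => h' hh.2), Nat.cast_zero]
    · rw [if_neg h]
      symm
      refine Finset.sum_eq_zero fun z' _ => ?_
      rw [if_neg (fun hh => h hh.1)]
  have h2 : ∀ z ∈ range D, ∀ z' ∈ range D,
      ∑ κ ∈ K, (if st z κ ∧ ∃ l ∈ K, l ∉ Γ ∧ st z' (κ + l) then (1 : ℝ) else 0) =
      if (∃ κ ∈ K, ∃ κ' ∈ K, κ - κ' ∉ Γ ∧ st z κ ∧ st z' κ') then (Hs.card : ℝ) else 0 := by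
    intro z hz z' _
    have hzD : z < D := Finset.mem_range.1 hz
    by_cases h : ∃ κ ∈ K, ∃ κ' ∈ K, κ - κ' ∉ Γ ∧ st z κ ∧ st z' κ'
    · rw [if_pos h]
      obtain ⟨κ, hκ, κ', hκ', hd, hs, hs'⟩ := h
      have e1 : ∑ κ ∈ K, (if st z κ ∧ ∃ l ∈ K, l ∉ Γ ∧ st z' (κ + l) then (1 : ℝ) else 0) =
          ((K.filter fun κ => st z κ ∧ ∃ l ∈ K, l ∉ Γ ∧ st z' (κ + l)).card : ℝ) := by
        rw [Finset.card_filter, Nat.cast_sum]
        refine Finset.sum_congr rfl fun x _ => ?_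
        split <;> simp
      rw [e1]
      have e2 : (K.filter fun κ => st z κ ∧ ∃ l ∈ K, l ∉ Γ ∧ st z' (κ + l)) =
          Hs.image fun h => κ + h := by
        ext a
        rw [Finset.mem_filter, Finset.mem_image]
        constructor
        · rintro ⟨ha, hsa, -⟩
          refine ⟨a - κ, (hH _).2 (hu z hzD a ha κ hκ hsa hs), ?_⟩
          abel
        · rintro ⟨h, hh, rfl⟩
          have hh' := (hH _).1 hh
          refine ⟨hKa _ hκ _ (hΓ _ hh'), hi z κ h hh' hs, κ' - κ - h, ?_, ?_, ?_⟩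
          · exact hKs _ (hKs _ hκ' _ hκ) _ (hΓ _ hh')
          · intro hc
            apply hd
            have : κ - κ' = -((κ' - κ - h) + h) := by abel
            rw [this]
            exact Γ.neg_mem (Γ.add_mem hc hh')
          · have : κ + h + (κ' - κ - h) = κ' := by abel
            rw [this]
            exact hs'
      rw [e2, Finset.card_image_of_injective _ (add_right_injective κ)]
    · rw [if_neg h]
      refine Finset.sum_eq_zero fun κ hκ => ?_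
      rw [if_neg]
      rintro ⟨hs, l, hl, hlΓ, hs'⟩
      apply h
      refine ⟨κ, hκ, κ + l, hKa _ hκ _ hl, ?_, hs, hs'⟩
      intro hc
      apply hlΓ
      have : l = -(κ - (κ + l)) := by abel
      rw [this]
      exact Γ.neg_mem hc
  calc ∑ κ ∈ K, ∑ z ∈ range D, (if st z κ then
      (((range D).filter fun z' => ∃ l ∈ K, l ∉ Γ ∧ st z' (κ + l)).card : ℝ) else 0)
      = ∑ κ ∈ K, ∑ z ∈ range D, ∑ z' ∈ range D,
        (if st z κ ∧ ∃ l ∈ K, l ∉ Γ ∧ st z' (κ + l) then (1 : ℝ) else 0) :=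
        Finset.sum_congr rfl fun κ _ => Finset.sum_congr rfl fun z _ => h1 κ z
    _ = ∑ z ∈ range D, ∑ z' ∈ range D, ∑ κ ∈ K,
        (if st z κ ∧ ∃ l ∈ K, l ∉ Γ ∧ st z' (κ + l) then (1 : ℝ) else 0) := by
        rw [Finset.sum_comm]
        refine Finset.sum_congr rfl fun z _ => ?_
        rw [Finset.sum_comm]
    _ = ∑ z ∈ range D, ∑ z' ∈ range D,
        (if (∃ κ ∈ K, ∃ κ' ∈ K, κ - κ' ∉ Γ ∧ st z κ ∧ st z' κ') then (Hs.card : ℝ) else 0) :=
        Finset.sum_congr rfl fun z hz => Finset.sum_congr rfl fun z' hz' => h2 z hz z' hz'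
    _ = _ := by
        rw [Finset.card_filter, Finset.sum_product, Nat.cast_sum, Finset.mul_sum]
        refine Finset.sum_congr rfl fun z _ => ?_
        rw [Nat.cast_sum, Finset.mul_sum]
        refine Finset.sum_congr rfl fun z' _ => ?_
        by_cases h : ∃ κ ∈ K, ∃ κ' ∈ K, κ - κ' ∉ Γ ∧ st z κ ∧ st z' κ'
        · rw [if_pos h, if_pos h]
          simp
        · rw [if_neg h, if_neg h]
          simp

/-- sums over a product of ranges -/
theorem sum_range_split (f : ℕ → ℝ) {A B : ℕ} (hA : 0 < A) :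
    ∑ x ∈ range (A * B), f x = ∑ y ∈ range A, ∑ z ∈ range B, f (y + A * z) := by
  rw [← Finset.sum_product' (f := fun y z => f (y + A * z))]
  symm
  refine Finset.sum_nbij' (fun p => p.1 + A * p.2) (fun x => (x % A, x / A)) ?_ ?_ ?_ ?_ ?_
  · rintro ⟨y, z⟩ h
    rw [Finset.mem_product, Finset.mem_range, Finset.mem_range] at h
    rw [Finset.mem_range]
    have h1 : y < A := h.1
    have h2 : z + 1 ≤ B := h.2
    calc y + A * z < A + A * z := by omega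
      _ = A * (z + 1) := by ring
      _ ≤ A * B := Nat.mul_le_mul_left _ h2
  · intro x hx
    rw [Finset.mem_range] at hx
    rw [Finset.mem_product, Finset.mem_range, Finset.mem_range]
    exact ⟨Nat.mod_lt _ hA, by rw [Nat.div_lt_iff_lt_mul hA, mul_comm]; exact hx⟩
  · rintro ⟨y, z⟩ h
    rw [Finset.mem_product, Finset.mem_range, Finset.mem_range] at h
    have h1 : y < A := h.1
    refine Prod.ext ?_ ?_
    · show (y + A * z) % A = y
      rw [Nat.add_mul_mod_self_left, Nat.mod_eq_of_lt h1]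
    · show (y + A * z) / A = z
      rw [Nat.add_mul_div_left _ _ hA, Nat.div_eq_of_lt h1, zero_add]
  · intro x _
    exact Nat.mod_add_div x A
  · intro p _
    rfl

theorem mem_Kr (hCO : L_CO) {k D x : ℕ} (hD : 1 ≤ D) {a : X k} : a ∈ Kr k D x ↔ phi D x a = 0 :=
  (hCO.2.2.2.1 k D x hD).2 a

theorem DS_posP {S : Finset ℕ} (h : ∀ p ∈ S, p.Prime) : 0 < DS S :=
  Finset.prod_pos fun p hp => (h p hp).pos

theorem DS_uni {S₁ S₂ : Finset ℕ} (h : Disjoint S₁ S₂) : DS (S₁ ∪ S₂) = DS S₁ * DS S₂ :=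
  Finset.prod_union h

open Classical in
/-- the pairs on one column -/
theorem col_sum (hCO : L_CO) (hCOL : T_COL) {k : ℕ} {S₁ S₂ : Finset ℕ} {V : Set (X k)}
    {Ge : ℕ → Set (X k)} {Gd : ℕ → ℕ → Set (X k)} {P m τ Ω : ℝ} (hdis : Disjoint S₁ S₂)
    (hS : SDatP k (S₁ ∪ S₂) V Ge Gd P m τ Ω) {y : ℕ} (hy : y < DS S₁) (b : X k) :
    ∑ κ ∈ Kr k (DS S₁) y, ∑ z ∈ range (DS S₂), (if StarP (S₁ ∪ S₂) V Gd (b + κ) (y + DS S₁ * z)
      then (DS S₂ : ℝ) * od S₁ S₂ V Gd (b + κ) y else 0) =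
    (DS S₁ : ℝ) ^ k * DP S₁ S₂ V Gd b y := by
  have hD1 : 1 ≤ DS S₁ := by omega
  have hD2 : 0 < DS S₂ := DS_posP fun p hp => (hS.pr p (Finset.mem_union_right _ hp)).1
  obtain ⟨-, h2, h3, -⟩ := hCOL k S₁ S₂ V Ge Gd P m τ Ω hdis hS
  have hcomb := comb (Kr k (DS S₁) y) (HF k (DS S₁) 1) (H k (DS S₁) 1)
    ((hTO k (DS S₁) hD1).2.1 1) ?_ ?_ ?_ (DS S₂)
    (fun z κ => StarP (S₁ ∪ S₂) V Gd (b + κ) (y + DS S₁ * z)) ?_ ?_
  · have hc : ((HF k (DS S₁) 1).card : ℝ) = (DS S₁ : ℝ) ^ k := by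
      rw [(hTO k (DS S₁) hD1).2.2.1 1, one_mul, Nat.cast_pow]
    unfold DP
    rw [← hc, ← hcomb]
    refine Finset.sum_congr rfl fun κ _ => Finset.sum_congr rfl fun z _ => ?_
    by_cases h : StarP (S₁ ∪ S₂) V Gd (b + κ) (y + DS S₁ * z)
    · rw [if_pos h, if_pos h]
      unfold od
      rw [mul_div_cancel₀ _ (by exact_mod_cast hD2.ne')]
      simp only [add_assoc]
    · rw [if_neg h, if_neg h]
  · intro a ha a' ha'
    rw [mem_Kr hCO hD1] at ha ha' ⊢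
    rw [map_add, ha, ha', add_zero]
  · intro a ha a' ha'
    rw [mem_Kr hCO hD1] at ha ha' ⊢
    rw [map_sub, ha, ha', sub_zero]
  · intro a ha
    rw [mem_Kr hCO hD1]
    exact hCO.2.1 k (DS S₁) y a ha
  · intro z hz a ha a' ha' hs hs'
    exact h2 y hy z hz b a ha a' ha' hs hs'
  · intro z a h hh hs
    have := h3 (y + DS S₁ * z) (b + a) h hh hs
    rwa [add_assoc] at this

open Classical in
theorem pf_PMI : T_MP → L_CO → L_AI → T_COL → T_MEA → T_PMI := by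
  intro _ hCO hAI hCOL hMEA k S₁ S₂ V Ge Gd P m τ Ω hdis hS
  obtain ⟨D₁, hD₁⟩ : ∃ D₁ : ℕ, D₁ = DS S₁ := ⟨_, rfl⟩
  obtain ⟨D₂, hD₂⟩ : ∃ D₂ : ℕ, D₂ = DS S₂ := ⟨_, rfl⟩
  have hD1 : 0 < D₁ := by
    rw [hD₁]
    exact DS_posP fun p hp => (hS.pr p (Finset.mem_union_left _ hp)).1
  have hD2 : 0 < D₂ := by
    rw [hD₂]
    exact DS_posP fun p hp => (hS.pr p (Finset.mem_union_right _ hp)).1
  have hR1 : (0 : ℝ) < D₁ := by exact_mod_cast hD1
  have hR2 : (0 : ℝ) < D₂ := by exact_mod_cast hD2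
  have hk : k ≤ KN k := by
    unfold KN
    rw [Nat.le_div_iff_mul_le two_pos]
    have := hS.hk
    exact Nat.mul_le_mul_left _ (by omega)
  obtain ⟨-, -, -, -, -, -, hmod, -, -, -, hbod, -⟩ := hMEA k S₁ S₂ V Ge Gd P m τ Ω hS
  have hmst : ∀ x, MeasurableSet {b : X k | StarP (S₁ ∪ S₂) V Gd b x} :=
    (hMEA k (S₁ ∪ S₂) ∅ V Ge Gd P m τ Ω (by rw [Finset.union_empty]; exact hS)).1
  -- one term
  have hterm : ∀ y z : ℕ, Measurable (fun b : X k =>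
      if StarP (S₁ ∪ S₂) V Gd b (y + DS S₁ * z) then (DS S₂ : ℝ) * od S₁ S₂ V Gd b y else 0) := by
    intro y z
    exact Measurable.ite (hmst _) ((hmod y).const_mul _) measurable_const
  have hbd : ∀ (y z : ℕ) (b : X k), |if StarP (S₁ ∪ S₂) V Gd b (y + DS S₁ * z) then
      (DS S₂ : ℝ) * od S₁ S₂ V Gd b y else 0| ≤ DS S₂ := by
    intro y z b
    split
    · rw [abs_mul, abs_of_nonneg (hbod b y).1, Nat.abs_cast]
      exact mul_le_of_le_one_right (Nat.cast_nonneg _) (hbod b y).2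
    · rw [abs_zero]
      exact Nat.cast_nonneg _
  have hint : ∀ y z : ℕ, Integrable (fun b : X k =>
      if StarP (S₁ ∪ S₂) V Gd b (y + DS S₁ * z) then (DS S₂ : ℝ) * od S₁ S₂ V Gd b y else 0) := by
    intro y z
    refine Integrable.of_bound (hterm y z).aestronglyMeasurable (DS S₂ : ℝ) ?_
    exact Filter.Eventually.of_forall fun b => by
      rw [Real.norm_eq_abs]
      exact hbd y z b
  have key : ∀ y ∈ range D₁, ∫ b : X k, DP S₁ S₂ V Gd b y / (DS S₂ : ℝ) ^ 2 =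
      (D₁ : ℝ) ^ (KN k - k) * ((1 / (D₂ : ℝ)) * ∑ z ∈ range D₂,
        ∫ b in {b : X k | StarP (S₁ ∪ S₂) V Gd b (y + D₁ * z)}, od S₁ S₂ V Gd b y) := by
    intro y hy
    have hy' : y < DS S₁ := by
      rw [← hD₁]
      exact Finset.mem_range.1 hy
    have hKc := (hCO.2.2.2.1 k (DS S₁) y (by omega)).1
    have hne : (Kr k (DS S₁) y).Nonempty := by
      rw [← Finset.card_pos, hKc, ← hD₁]
      positivity
    have hAIy := hAI k (Kr k (DS S₁) y) (fun b : X k => ∑ z ∈ range (DS S₂),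
      (if StarP (S₁ ∪ S₂) V Gd b (y + DS S₁ * z) then (DS S₂ : ℝ) * od S₁ S₂ V Gd b y else 0))
      (∑ _z ∈ range (DS S₂), (DS S₂ : ℝ)) hne
      (Finset.measurable_sum _ fun z _ => hterm y z)
      (fun b => (Finset.abs_sum_le_sum_abs _ _).trans (Finset.sum_le_sum fun z _ => hbd y z b))
    have e1 : ∀ b : X k, ∑ κ ∈ Kr k (DS S₁) y, ∑ z ∈ range (DS S₂),
        (if StarP (S₁ ∪ S₂) V Gd (b + κ) (y + DS S₁ * z) then
          (DS S₂ : ℝ) * od S₁ S₂ V Gd (b + κ) y else 0) = (DS S₁ : ℝ) ^ k * DP S₁ S₂ V Gd b y :=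
      fun b => col_sum hCO hCOL hdis hS hy' b
    simp only [e1] at hAIy
    rw [hKc, integral_const_mul, integral_finsetSum _ fun z _ => hint y z] at hAIy
    have e2 : ∀ z, ∫ b : X k, (if StarP (S₁ ∪ S₂) V Gd b (y + DS S₁ * z) then
        (DS S₂ : ℝ) * od S₁ S₂ V Gd b y else 0) =
        DS S₂ * ∫ b in {b : X k | StarP (S₁ ∪ S₂) V Gd b (y + DS S₁ * z)},
          od S₁ S₂ V Gd b y := by
      intro z
      rw [← integral_const_mul, ← integral_indicator (hmst _)]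
      rfl
    simp only [e2] at hAIy
    rw [← Finset.mul_sum, ← hD₁, ← hD₂] at hAIy
    rw [integral_div, ← hD₂]
    obtain ⟨I, hI⟩ : ∃ I : ℝ, I = ∫ b : X k, DP S₁ S₂ V Gd b y := ⟨_, rfl⟩
    obtain ⟨J, hJ⟩ : ∃ J : ℝ, J = ∑ z ∈ range D₂,
      ∫ b in {b : X k | StarP (S₁ ∪ S₂) V Gd b (y + D₁ * z)}, od S₁ S₂ V Gd b y := ⟨_, rfl⟩
    rw [← hI, ← hJ] at hAIy
    rw [← hI, ← hJ]
    have hpow : (D₁ : ℝ) ^ (KN k) = (D₁ : ℝ) ^ (KN k - k) * (D₁ : ℝ) ^ k := by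
      rw [← pow_add, Nat.sub_add_cancel hk]
    rw [Nat.cast_pow, hpow] at hAIy
    have h5 : I = (D₁ : ℝ) ^ (KN k - k) * (D₂ * J) := by
      rw [hAIy]
      field_simp
    rw [h5]
    field_simp
  unfold PM
  rw [DS_uni hdis, ← hD₁, ← hD₂, Nat.cast_mul,
    sum_range_split (fun x => ∫ b in {b : X k | StarP (S₁ ∪ S₂) V Gd b x},
      od S₁ S₂ V Gd b (x % D₁)) hD1]
  have e3 : ∑ y ∈ range D₁, ∑ z ∈ range D₂, (∫ b in {b : X k | StarP (S₁ ∪ S₂) V Gd b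
      (y + D₁ * z)}, od S₁ S₂ V Gd b ((y + D₁ * z) % D₁)) =
      ∑ y ∈ range D₁, ∑ z ∈ range D₂, ∫ b in {b : X k | StarP (S₁ ∪ S₂) V Gd b
        (y + D₁ * z)}, od S₁ S₂ V Gd b y := by
    refine Finset.sum_congr rfl fun y hy => Finset.sum_congr rfl fun z _ => ?_
    rw [Nat.add_mul_mod_self_left, Nat.mod_eq_of_lt (Finset.mem_range.1 hy)]
  rw [e3]
  have e4 : ∑ y ∈ range D₁, ∫ b : X k, DP S₁ S₂ V Gd b y / (D₂ : ℝ) ^ 2 =
      ∑ y ∈ range D₁, (D₁ : ℝ) ^ (KN k - k) * ((1 / (D₂ : ℝ)) * ∑ z ∈ range D₂,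
        ∫ b in {b : X k | StarP (S₁ ∪ S₂) V Gd b (y + D₁ * z)}, od S₁ S₂ V Gd b y) := by
    refine Finset.sum_congr rfl fun y hy => ?_
    rw [← key y hy, hD₂]
  rw [e4, ← Finset.mul_sum, ← Finset.mul_sum, mul_pow]
  field_simp

end Pool.Agent.H36.EH
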