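import Pool.Agent.H36.EH.PMI
import Pool.Agent.H31.EST.RIP
import Pool.Agent.H22.LVP.JE

/-!
Row PMS: a direction is different if and only if it is different for one prime.
-/

set_option autoImplicit false

open Finset MeasureTheory

namespace Pool.Agent.H36.EH

open Pool.Agent.H24.CL Pool.Agent.H24.LV Pool.Agent.H26.ES Pool.Agent.H31.EH Pool.Agent.H60.LVP
  Pool.Agent.H31.EST

theorem DS_sing (p : ℕ) : DS {p} = p := Finset.prod_singleton _ _

/-- the order of a point which is killed by `p (DS S / p) ^ k` for all `p` -/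
theorem killed {k : ℕ} {S : Finset ℕ} (hp : ∀ p ∈ S, p.Prime) (hk : 1 ≤ k) {d : X k}
    (h0 : (DS S ^ k) • d = 0) (h1 : ∀ p ∈ S, ((DS S / p) ^ k * p) • d = 0) : DS S • d = 0 := by
  obtain ⟨n, hn⟩ : ∃ n : ℕ, n = addOrderOf d := ⟨_, rfl⟩
  have hD : 0 < DS S := DS_posP hp
  have hn0 : n ∣ DS S ^ k := by
    rw [hn]
    exact addOrderOf_dvd_of_nsmul_eq_zero h0
  have hn1 : ∀ p ∈ S, n ∣ (DS S / p) ^ k * p := by
    intro p hpS
    rw [hn]
    exact addOrderOf_dvd_of_nsmul_eq_zero (h1 p hpS)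
  have hsq : Squarefree n := by
    rw [Nat.squarefree_iff_prime_squarefree]
    intro q hq hqq
    have h2 : q ∣ DS S := hq.dvd_of_dvd_pow (((dvd_mul_right q q).trans hqq).trans hn0)
    have hqS : q ∈ S := by
      unfold DS at h2
      obtain ⟨a, ha, hqa⟩ := (Prime.dvd_finsetProd_iff hq.prime _).1 h2
      rwa [(Nat.prime_dvd_prime_iff_eq hq (hp a ha)).1 hqa]
    have h3 : q * q ∣ (DS S / q) ^ k * q := hqq.trans (hn1 q hqS)
    have h4 : q ∣ (DS S / q) ^ k := Nat.dvd_of_mul_dvd_mul_right hq.pos h3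
    have h5 : q ∣ DS S / q := hq.dvd_of_dvd_pow h4
    have h6 : DS S / q = ∏ p ∈ S.erase q, p := by
      unfold DS
      rw [← Finset.mul_prod_erase S (fun p => p) hqS, Nat.mul_div_cancel_left _ hq.pos]
    rw [h6] at h5
    obtain ⟨a, ha, hqa⟩ := (Prime.dvd_finsetProd_iff hq.prime _).1 h5
    have h7 := (Nat.prime_dvd_prime_iff_eq hq (hp a (Finset.mem_of_mem_erase ha))).1 hqa
    exact (Finset.ne_of_mem_erase ha) h7.symm
  have h8 : n ∣ DS S := (hsq.dvd_pow_iff_dvd (by omega)).1 hn0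
  obtain ⟨c, hc⟩ := h8
  rw [hc, mul_comm, mul_nsmul', hn, addOrderOf_nsmul_eq_zero, nsmul_zero]

/-- a direction which is trivial for all primes is trivial -/
theorem dir_all (hCO : L_CO) {k : ℕ} {S : Finset ℕ} (hp : ∀ p ∈ S, p.Prime) (hk : 1 ≤ k) {y : ℕ}
    {d : X k} (hd : phi (DS S) y d = 0)
    (h : ∀ p ∈ S, phi (DS S / p) (y % (DS S / p)) d ∈ H k p 1) : d ∈ H k (DS S) 1 := by
  have hD : 0 < DS S := DS_posP hp
  have h0 : (DS S ^ k) • d = 0 := by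
    have : d ∈ H k (DS S) k := by
      apply (hKC k (DS S) y hD).2
      rw [AddMonoidHom.mem_ker]
      exact hd
    exact mem_H.1 this
  rw [mem_H, pow_one]
  refine killed hp hk h0 fun p hpS => ?_
  obtain ⟨E, hE⟩ : ∃ E : ℕ, E = DS S / p := ⟨_, rfl⟩
  have hpE : p * E = DS S := by
    rw [hE]
    exact Nat.mul_div_cancel' (Finset.dvd_prod_of_mem (fun p => p) hpS)
  have hEp : E = ∏ q ∈ S.erase p, q := by
    rw [hE]
    unfold DS
    rw [← Finset.mul_prod_erase S (fun p => p) hpS, Nat.mul_div_cancel_left _ (hp p hpS).pos]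
  have hco : E.Coprime p := by
    rw [hEp]
    refine Nat.Coprime.prod_left fun q hq => ?_
    exact (Nat.coprime_primes (hp q (Finset.mem_of_mem_erase hq)) (hp p hpS)).2
      (Finset.ne_of_mem_erase hq)
  have h1 := h p hpS
  rw [mem_H, pow_one, ← hE, ← map_nsmul] at h1
  rw [← hE]
  refine hCO.2.2.1 k E (y % E) (p ^ k) ((E ^ k * p) • d) (Nat.Coprime.pow_right k hco) ?_ ?_
  · rw [smul_smul]
    have : p ^ k * (E ^ k * p) = p * DS S ^ k := by
      rw [← hpE, mul_pow]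
      ring
    rw [this, ← smul_smul, h0, smul_zero]
  · rw [mul_smul, map_nsmul, h1, smul_zero]

open Classical in
/-- one column -/
theorem dp_le (hCO : L_CO) {k : ℕ} {S₁ S₂ : Finset ℕ} {V : Set (X k)}
    {Ge : ℕ → Set (X k)} {Gd : ℕ → ℕ → Set (X k)} {P m τ Ω : ℝ} (hdis : Disjoint S₁ S₂)
    (hS : SDatP k (S₁ ∪ S₂) V Ge Gd P m τ Ω) (y : ℕ) (b : X k) :
    DP S₁ S₂ V Gd b y ≤ ∑ p ∈ S₁, DP {p} S₂ V Gd
      (phi (DS S₁ / p) (y % (DS S₁ / p)) b) (y / (DS S₁ / p)) := by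
  have hp1 : ∀ p ∈ S₁, p.Prime := fun p hp => (hS.pr p (Finset.mem_union_left _ hp)).1
  have hp2 : ∀ p ∈ S₂, p.Prime := fun p hp => (hS.pr p (Finset.mem_union_right _ hp)).1
  have hD1 : 0 < DS S₁ := DS_posP hp1
  have hD2 : 0 < DS S₂ := DS_posP hp2
  have hsub : ((range (DS S₂) ×ˢ range (DS S₂)).filter fun z => ∃ κ ∈ Kr k (DS S₁) y,
      ∃ κ' ∈ Kr k (DS S₁) y, κ - κ' ∉ H k (DS S₁) 1 ∧
      StarP (S₁ ∪ S₂) V Gd (b + κ) (y + DS S₁ * z.1) ∧
      StarP (S₁ ∪ S₂) V Gd (b + κ') (y + DS S₁ * z.2)) ⊆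
      S₁.biUnion fun p => (range (DS S₂) ×ˢ range (DS S₂)).filter fun z =>
        ∃ κ ∈ Kr k (DS {p}) (y / (DS S₁ / p)), ∃ κ' ∈ Kr k (DS {p}) (y / (DS S₁ / p)),
        κ - κ' ∉ H k (DS {p}) 1 ∧
        StarP ({p} ∪ S₂) V Gd (phi (DS S₁ / p) (y % (DS S₁ / p)) b + κ)
          (y / (DS S₁ / p) + DS {p} * z.1) ∧
        StarP ({p} ∪ S₂) V Gd (phi (DS S₁ / p) (y % (DS S₁ / p)) b + κ')
          (y / (DS S₁ / p) + DS {p} * z.2) := by
    intro z hz
    rw [Finset.mem_filter] at hz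
    obtain ⟨hz0, κ, hκ, κ', hκ', hne, hs, hs'⟩ := hz
    rw [mem_Kr hCO hD1] at hκ hκ'
    have hex : ∃ p ∈ S₁, phi (DS S₁ / p) (y % (DS S₁ / p)) (κ - κ') ∉ H k p 1 := by
      by_contra hcon
      push Not at hcon
      exact hne (dir_all hCO hp1 (by have := hS.hk; omega) (by rw [map_sub, hκ, hκ', sub_zero])
        hcon)
    obtain ⟨p, hp, hnp⟩ := hex
    rw [Finset.mem_biUnion]
    refine ⟨p, hp, ?_⟩
    obtain ⟨E, hE⟩ : ∃ E : ℕ, E = DS S₁ / p := ⟨_, rfl⟩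
    have hpE : p * E = DS S₁ := by
      rw [hE]
      exact Nat.mul_div_cancel' (Finset.dvd_prod_of_mem (fun p => p) hp)
    have hE0 : 0 < E := by
      rcases Nat.eq_zero_or_pos E with h0 | h0
      · rw [h0, mul_zero] at hpE
        omega
      · exact h0
    have hpp := (hp1 p hp).pos
    rw [← hE] at hnp ⊢
    rw [Finset.mem_filter, DS_sing]
    have hkr : ∀ l : X k, phi (DS S₁) y l = 0 → phi E (y % E) l ∈ Kr k p (y / E) := by
      intro l hl
      rw [mem_Kr hCO hpp, hCO.1, Nat.mod_add_div, hpE]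
      exact hl
    have hpS2 : p ∉ S₂ := fun hh => (Finset.disjoint_left.1 hdis hp) hh
    have hst : ∀ (l : X k) (t : ℕ), StarP (S₁ ∪ S₂) V Gd (b + l) (y + DS S₁ * t) →
        StarP ({p} ∪ S₂) V Gd (phi E (y % E) b + phi E (y % E) l) (y / E + p * t) := by
      intro l t hl
      have hss : ({p} ∪ S₂ : Finset ℕ) ⊆ S₁ ∪ S₂ := by
        intro q hq
        rw [Finset.mem_union, Finset.mem_singleton] at hq
        rw [Finset.mem_union]
        rcases hq with h | h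
        · left
          rw [h]
          exact hp
        · right
          exact h
      have h5 := starP_subset hCO hss hS (b + l) (y + DS S₁ * t) hl
      have hq : DS (S₁ ∪ S₂) / DS ({p} ∪ S₂) = E := by
        rw [DS_uni hdis, DS_uni (Finset.disjoint_singleton_left.2 hpS2), DS_sing, ← hpE]
        rw [show p * E * DS S₂ = (p * DS S₂) * E by ring,
          Nat.mul_div_cancel_left _ (Nat.mul_pos hpp hD2)]
      rw [hq, ← hpE] at h5
      have e1 : (y + p * E * t) % E = y % E := by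
        rw [show y + p * E * t = y + E * (p * t) by ring, Nat.add_mul_mod_self_left]
      have e2 : (y + p * E * t) / E = y / E + p * t := by
        rw [show y + p * E * t = y + E * (p * t) by ring, Nat.add_mul_div_left _ _ hE0]
      rw [e1, e2, map_add] at h5
      exact h5
    refine ⟨hz0, phi E (y % E) κ, hkr κ hκ, phi E (y % E) κ', hkr κ' hκ', ?_, hst _ _ hs,
      hst _ _ hs'⟩
    rw [← map_sub]
    exact hnp
  have h1 := (Finset.card_le_card hsub).trans Finset.card_biUnion_le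
  unfold DP
  exact_mod_cast h1

theorem pf_PMS : T_MP → L_CO → L_CT → T_COL → T_MEA → T_PMS := by
  intro hMP hCO _ _ hMEA k S₁ S₂ V Ge Gd P m τ Ω hdis hS
  have hp1 : ∀ p ∈ S₁, p.Prime := fun p hp => (hS.pr p (Finset.mem_union_left _ hp)).1
  have hD1 : 0 < DS S₁ := DS_posP hp1
  obtain ⟨-, -, -, -, -, hm0, -, -, -, hb0, -, -⟩ := hMEA k S₁ S₂ V Ge Gd P m τ Ω hS
  have hsub : ∀ p ∈ S₁, SDatP k ({p} ∪ S₂) V Ge Gd P m τ Ω := fun p hp =>
    SDatP_mono hS (Finset.union_subset_union_left (Finset.singleton_subset_iff.2 hp))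
  have hm1 : ∀ p ∈ S₁, ∀ y, Measurable fun b : X k => DP {p} S₂ V Gd b y := by
    intro p hp
    obtain ⟨-, -, -, -, -, h, -, -, -, -, -, -⟩ := hMEA k {p} S₂ V Ge Gd P m τ Ω (hsub p hp)
    exact h
  have hb1 : ∀ p ∈ S₁, ∀ (b : X k) y, 0 ≤ DP {p} S₂ V Gd b y ∧
      DP {p} S₂ V Gd b y ≤ (DS S₂ : ℝ) ^ 2 := by
    intro p hp
    obtain ⟨-, -, -, -, -, -, -, -, -, h, -, -⟩ := hMEA k {p} S₂ V Ge Gd P m τ Ω (hsub p hp)
    exact h
  have hi1 : ∀ p ∈ S₁, ∀ (D x y : ℕ), 1 ≤ D →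
      Integrable fun b : X k => DP {p} S₂ V Gd (phi D x b) y / (DS S₂ : ℝ) ^ 2 := by
    intro p hp D x y hD
    refine Integrable.of_bound ((((hm1 p hp y).comp (hMP k D x hD).1.measurable).div_const
      _).aestronglyMeasurable) 1 ?_
    refine Filter.Eventually.of_forall fun b => ?_
    have h := hb1 p hp (phi D x b) y
    rw [Real.norm_eq_abs, abs_div, abs_of_nonneg h.1, abs_of_nonneg (sq_nonneg _)]
    exact div_le_one_of_le₀ h.2 (sq_nonneg _)
  have hi0 : ∀ y : ℕ, Integrable fun b : X k => DP S₁ S₂ V Gd b y / (DS S₂ : ℝ) ^ 2 := by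
    intro y
    refine Integrable.of_bound (((hm0 y).div_const _).aestronglyMeasurable) 1 ?_
    refine Filter.Eventually.of_forall fun b => ?_
    have h := hb0 b y
    rw [Real.norm_eq_abs, abs_div, abs_of_nonneg h.1, abs_of_nonneg (sq_nonneg _)]
    exact div_le_one_of_le₀ h.2 (sq_nonneg _)
  have hE : ∀ p ∈ S₁, 1 ≤ DS S₁ / p := by
    intro p hp
    rw [Nat.one_le_div_iff (hp1 p hp).pos]
    exact Nat.le_of_dvd hD1 (Finset.dvd_prod_of_mem (fun p => p) hp)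
  have h1 : ∀ y : ℕ, ∫ b : X k, DP S₁ S₂ V Gd b y / (DS S₂ : ℝ) ^ 2 ≤
      ∑ p ∈ S₁, ∫ b : X k, DP {p} S₂ V Gd b (y / (DS S₁ / p)) / (DS S₂ : ℝ) ^ 2 := by
    intro y
    have h2 : ∀ p ∈ S₁, ∫ b : X k, DP {p} S₂ V Gd b (y / (DS S₁ / p)) / (DS S₂ : ℝ) ^ 2 =
        ∫ b : X k, DP {p} S₂ V Gd (phi (DS S₁ / p) (y % (DS S₁ / p)) b) (y / (DS S₁ / p)) /
          (DS S₂ : ℝ) ^ 2 := by
      intro p hp
      have hmp := (hMP k (DS S₁ / p) (y % (DS S₁ / p)) (hE p hp)).2.2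
      have h3 := integral_map (μ := (volume : Measure (X k))) hmp.measurable.aemeasurable
        (f := fun b : X k => DP {p} S₂ V Gd b (y / (DS S₁ / p)) / (DS S₂ : ℝ) ^ 2)
        ((hm1 p hp _).div_const _).aestronglyMeasurable
      rw [hmp.map_eq] at h3
      exact h3
    rw [Finset.sum_congr rfl h2, ← integral_finsetSum _ fun p hp => hi1 p hp _ _ _ (hE p hp)]
    refine integral_mono (hi0 y) (integrable_finsetSum _ fun p hp => hi1 p hp _ _ _ (hE p hp))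
      fun b => ?_
    show DP S₁ S₂ V Gd b y / (DS S₂ : ℝ) ^ 2 ≤ ∑ p ∈ S₁, DP {p} S₂ V Gd
      (phi (DS S₁ / p) (y % (DS S₁ / p)) b) (y / (DS S₁ / p)) / (DS S₂ : ℝ) ^ 2
    rw [← Finset.sum_div]
    exact div_le_div_of_nonneg_right (dp_le hCO hdis hS y b) (sq_nonneg _)
  unfold PM
  calc (DS S₂ : ℝ) ^ (KN k - k) * ((1 / (DS S₁ : ℝ)) * ∑ y ∈ range (DS S₁),
        ∫ b : X k, DP S₁ S₂ V Gd b y / (DS S₂ : ℝ) ^ 2)
      ≤ (DS S₂ : ℝ) ^ (KN k - k) * ((1 / (DS S₁ : ℝ)) * ∑ y ∈ range (DS S₁),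
        ∑ p ∈ S₁, ∫ b : X k, DP {p} S₂ V Gd b (y / (DS S₁ / p)) / (DS S₂ : ℝ) ^ 2) := by
        refine mul_le_mul_of_nonneg_left (mul_le_mul_of_nonneg_left
          (Finset.sum_le_sum fun y _ => h1 y) (by positivity)) (by positivity)
    _ = ∑ p ∈ S₁, (DS S₂ : ℝ) ^ (KN k - k) * ((1 / (DS {p} : ℝ)) * ∑ y ∈ range (DS {p}),
        ∫ b : X k, DP {p} S₂ V Gd b y / (DS S₂ : ℝ) ^ 2) := by
        rw [Finset.sum_comm, Finset.mul_sum, Finset.mul_sum]
        refine Finset.sum_congr rfl fun p hp => ?_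
        rw [Pool.Agent.H22.LVP.avg_div (fun y => ∫ b : X k, DP {p} S₂ V Gd b y /
          (DS S₂ : ℝ) ^ 2) (hp1 p hp).pos hD1 (Finset.dvd_prod_of_mem (fun p => p) hp), DS_sing]

end Pool.Agent.H36.EH
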